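import Pool.Agent.H69.OC.Targets
import Pool.Agent.H46.Flow.Cover

/-!
# MP_781dd6_co, toroidal graphs: modules FIN and BLS
-/

set_option autoImplicit false
set_option linter.unusedSectionVars false
open scoped Classical
open Finset

namespace Pool.Agent.H73.OC

open Pool.Agent.H69.OC Pool.Agent.H69.OC.DG Pool.Agent.H46.Flow

section FIN

variable {V : Type} [Fintype V] (G : SimpleGraph V)

/-- counting darts out of `u` -/
theorem cnt (u : V) (p : G.Dart → Prop) [DecidablePred p] :
    ∑ v, (if h : G.Adj u v then (if p ⟨(u, v), h⟩ then (1 : ℤ) else 0) else 0) =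
      ((sel univ fun d : G.Dart => d.fst = u ∧ p d).card : ℤ) := by
  have h1 : ∀ v, (if h : G.Adj u v then (if p ⟨(u, v), h⟩ then (1 : ℤ) else 0) else 0) =
      if (∃ h : G.Adj u v, p ⟨(u, v), h⟩) then 1 else 0 := by
    intro v
    by_cases h : G.Adj u v
    · rw [dif_pos h]
      by_cases hp : p ⟨(u, v), h⟩
      · rw [if_pos hp, if_pos ⟨h, hp⟩]
      · rw [if_neg hp, if_neg]
        rintro ⟨_, hp'⟩
        exact hp hp'
    · rw [dif_neg h, if_neg]
      rintro ⟨h', _⟩
      exact h h'
  rw [Finset.sum_congr rfl fun v _ => h1 v, Finset.sum_boole]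
  congr 1
  symm
  refine Finset.card_bij (fun d _ => d.snd) ?_ ?_ ?_
  · intro d hd
    rw [mem_sel] at hd
    obtain ⟨_, hd1, hd2⟩ := hd
    rw [mem_filter]
    refine ⟨mem_univ _, ?_⟩
    subst hd1
    exact ⟨d.adj, hd2⟩
  · intro d hd d' hd' h
    rw [mem_sel] at hd hd'
    exact SimpleGraph.Dart.ext _ _ (Prod.ext (hd.2.1.trans hd'.2.1.symm) h)
  · intro v hv
    rw [mem_filter] at hv
    obtain ⟨_, h, hp⟩ := hv
    refine ⟨⟨(u, v), h⟩, ?_, rfl⟩
    rw [mem_sel]
    exact ⟨mem_univ _, rfl, hp⟩

/-- the flow of the label `k` -/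
noncomputable def Ek (lam : G.Dart → ℕ) (k : ℕ) (u v : V) : ℤ :=
  if h : G.Adj u v then (if lam ⟨(u, v), h⟩ = k then 1 else 0) -
    (if lam ⟨(v, u), h.symm⟩ = k then 1 else 0) else 0

theorem Ek_flow (lam : G.Dart → ℕ) (hb : (dgS G).Bal univ lam) (k : ℕ) :
    IsFlow G (Ek G lam k) where
  anti u v := by
    unfold Ek
    by_cases h : G.Adj u v
    · rw [dif_pos h, dif_pos h.symm]; ring
    · rw [dif_neg h, dif_neg (fun h' => h h'.symm)]; simp
  supp u v h := by
    unfold Ek
    rw [dif_neg h]
  cons u := by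
    have h1 : ∀ v, Ek G lam k u v =
        (if h : G.Adj u v then (if lam ⟨(u, v), h⟩ = k then (1 : ℤ) else 0) else 0) -
        (if h : G.Adj u v then (if lam (SimpleGraph.Dart.symm ⟨(u, v), h⟩) = k then (1 : ℤ) else 0)
          else 0) := by
      intro v
      unfold Ek
      by_cases h : G.Adj u v
      · rw [dif_pos h, dif_pos h, dif_pos h]
        rfl
      · rw [dif_neg h, dif_neg h, dif_neg h]; simp
    rw [Finset.sum_congr rfl fun v _ => h1 v, Finset.sum_sub_distrib,
      cnt G u (fun d => lam d = k), cnt G u (fun d => lam d.symm = k)]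
    have h2 := hb u k
    have h3 : (sel univ fun d : G.Dart => (dgS G).src d = u ∧ lam d = k).card =
      (sel univ fun d : G.Dart => d.fst = u ∧ lam d = k).card := rfl
    have h4 : (sel univ fun d : G.Dart => (dgS G).src d = u ∧ lam ((dgS G).inv d) = k).card =
      (sel univ fun d : G.Dart => d.fst = u ∧ lam d.symm = k).card := rfl
    rw [h3, h4] at h2
    rw [h2, sub_self]

end FIN

theorem t_fin : T_FIN := by
  intro V _ G hc
  obtain ⟨lam, hne, hb⟩ := hc
  have hcov : HasCover G (fun _ _ => 1) := by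
    refine ⟨(Finset.range (univ.sup lam + 1)).toList.map (Ek G lam), ?_, ?_⟩
    · intro E hE
      rw [List.mem_map] at hE
      obtain ⟨k, _, rfl⟩ := hE
      refine ⟨Ek_flow G lam hb k, ?_⟩
      intro u v
      unfold Ek
      split_ifs <;> norm_num
    · intro u v huv
      rw [List.map_map, Finset.sum_map_toList]
      have h1 : lam ⟨(u, v), huv⟩ ≠ lam ⟨(v, u), huv.symm⟩ := hne ⟨(u, v), huv⟩ (mem_univ _)
      have h2 : ∀ k, ((fun E : V → V → ℤ => if E u v = 1 then 1 else 0) ∘ Ek G lam) k =
          if k = lam ⟨(u, v), huv⟩ then 1 else 0 := by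
        intro k
        simp only [Function.comp_apply]
        by_cases hk : k = lam ⟨(u, v), huv⟩
        · rw [if_pos hk, if_pos]
          unfold Ek
          rw [dif_pos huv, if_pos hk.symm, if_neg, sub_zero]
          rw [hk]
          exact fun h => h1 h.symm
        · rw [if_neg hk, if_neg]
          unfold Ek
          rw [dif_pos huv, if_neg (fun h => hk h.symm)]
          split_ifs <;> norm_num
      rw [Finset.sum_congr rfl fun k _ => h2 k, Finset.sum_ite_eq', if_pos]
      rw [Finset.mem_range]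
      have := Finset.le_sup (f := lam) (mem_univ (⟨(u, v), huv⟩ : G.Dart))
      omega
  obtain ⟨C, hC, hC2⟩ := hcov.toCycles
  exact ⟨C, hC, fun u v huv => hC2 u v huv⟩

theorem t_bls : T_BLS := by
  intro V _ G hG W hcard
  obtain ⟨d, hd⟩ := Finset.card_eq_one.1 hcard
  have hmem : d ∈ (dgS G).cut univ W := by rw [hd]; exact mem_singleton_self _
  rw [mem_cut] at hmem
  obtain ⟨_, hs, ht⟩ := hmem
  have huniq : ∀ d', d' ∈ (dgS G).cut univ W → d' = d := by
    intro d' hd'
    rw [hd] at hd'
    exact mem_singleton.1 hd'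
  obtain ⟨p⟩ := hG d.fst d.snd d.adj
  have key : ∀ (a b : V), (G.deleteEdges {s(d.fst, d.snd)}).Walk a b → a ∈ W → b ∈ W := by
    intro a b q
    induction q with
    | nil => exact id
    | @cons a c b h q ih =>
      intro ha
      apply ih
      by_contra hc
      have hadj : G.Adj a c := by
        have := SimpleGraph.deleteEdges_le {s(d.fst, d.snd)} h
        exact this
      have h1 : (⟨(a, c), hadj⟩ : G.Dart) = d := by
        apply huniq
        rw [mem_cut]
        exact ⟨mem_univ _, ha, hc⟩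
      rw [SimpleGraph.deleteEdges_adj] at h
      apply h.2
      rw [Set.mem_singleton_iff, ← h1]
  exact ht (key _ _ p hs)

end Pool.Agent.H73.OC
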